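import Mathlib

/-!
# The permutation-building game under Convention I

Player `A` wins exactly for `N ≤ 2`. For even `N ≥ 4` player `B` answers every value `v` by its partner
in the pairing `{0, 1}, {2, 3}, ...`, so that both permutations commute with the fixed-point-free
involution given by the pairing. For odd `N ≥ 3` player `B` makes both permutations even with the last
choice in each word.
-/

set_option autoImplicit false

namespace Pool.Agent.Results.MP_337ab5_co.ConventionOne

/-- The value `v` may be appended to the list `w` of the entries chosen so far: it does not occur in the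
current word (the first `N` entries of `w` form the first word, the further entries belong to the second
word). -/
def Legal {N : ℕ} (w : List (Fin N)) (v : Fin N) : Prop :=
  if w.length < N then v ∉ w else v ∉ w.drop N

/-- The list `w` of `2 N` entries is won by `A`: the permutations given by its first `N` and by its last
`N` entries generate the symmetric group. -/
def Won {N : ℕ} (w : List (Fin N)) : Prop :=
  ∃ σ τ : Equiv.Perm (Fin N), (∀ i : Fin N, w[(i : ℕ)]? = some (σ i)) ∧
    (∀ i : Fin N, w[N + (i : ℕ)]? = some (τ i)) ∧ Subgroup.closure {σ, τ} = ⊤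

/-- `A` can force a win when the entries in `w` have been chosen and `m` more entries are to be chosen.
The entry with index `k` (counted from `0`) is chosen by `A` if `turnA k` holds and by `B` otherwise. -/
def AWins {N : ℕ} (turnA : ℕ → Prop) : ℕ → List (Fin N) → Prop
  | 0, w => Won w
  | m + 1, w => (turnA w.length ∧ ∃ v, Legal w v ∧ AWins turnA m (w ++ [v])) ∨
      (¬ turnA w.length ∧ ∀ v, Legal w v → AWins turnA m (w ++ [v]))

/-- Convention I: in each word `A` chooses the first, third, fifth, ... entry. -/
def conventionI (N k : ℕ) : Prop := Even (k % N)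

/-- `A` has a winning strategy in the game for `N` under Convention I. -/
def AWinsGame (N : ℕ) : Prop := AWins (N := N) (conventionI N) (2 * N) []

/-! ### Even `N` -/

/-- The partner of a value in the pairing `{0, 1}, {2, 3}, ...`. -/
def partner {N : ℕ} (hN : Even N) (v : Fin N) : Fin N :=
  if h : Even (v : ℕ) then ⟨v + 1, by
    have := v.2
    rcases hN with ⟨a, rfl⟩
    rcases h with ⟨b, hb⟩
    omega⟩
  else ⟨v - 1, by have := v.2; omega⟩

theorem partner_val {N : ℕ} (hN : Even N) (v : Fin N) :
    (partner hN v : ℕ) = if Even (v : ℕ) then (v : ℕ) + 1 else v - 1 := by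
  unfold partner
  split_ifs with h <;> rfl

theorem partner_partner {N : ℕ} (hN : Even N) (v : Fin N) : partner hN (partner hN v) = v := by
  apply Fin.ext
  rw [partner_val, partner_val]
  by_cases h : Even (v : ℕ)
  · rw [if_pos h, if_neg (by rw [Nat.even_add_one]; simpa using h)]
    omega
  · have h2 : Odd (v : ℕ) := Nat.not_even_iff_odd.1 h
    obtain ⟨k, hk⟩ := h2
    rw [if_neg h, if_pos (by rw [hk]; exact ⟨k, by omega⟩)]
    omega

theorem partner_ne {N : ℕ} (hN : Even N) (v : Fin N) : partner hN v ≠ v := by
  intro h
  have := congrArg Fin.val h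
  rw [partner_val] at this
  split_ifs at this with h2
  · omega
  · have h2 : Odd (v : ℕ) := Nat.not_even_iff_odd.1 h2
    obtain ⟨k, hk⟩ := h2
    omega

/-- The entries with indices `2 k` and `2 k + 1` are partners. -/
def Paired {N : ℕ} (hN : Even N) (w : List (Fin N)) : Prop :=
  ∀ k v, w[2 * k]? = some v → 2 * k + 1 < w.length → w[2 * k + 1]? = some (partner hN v)

theorem partner_legal {N : ℕ} (hN : Even N) (w : List (Fin N)) (v : Fin N)
    (hlen : Even w.length) (hw : Paired hN w) (hv : Legal w v) :
    Legal (w ++ [v]) (partner hN v) := by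
  -- an occurrence of the partner in the current word would give an occurrence of `v`
  have key : ∀ j, w[j]? = some (partner hN v) →
      ∃ j', w[j']? = some v ∧ j' / 2 = j / 2 := by
    intro j hj
    have hjl : j < w.length := by
      by_contra hcon
      rw [List.getElem?_eq_none (by omega)] at hj
      exact absurd hj (by simp)
    obtain ⟨L, hL⟩ := hlen
    rcases Nat.even_or_odd' j with ⟨k, hk | hk⟩
    · refine ⟨2 * k + 1, ?_, by omega⟩
      rw [hk] at hj
      have := hw k _ hj (by omega)
      rwa [partner_partner] at this
    · have h2 : 2 * k < w.length := by omega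
      refine ⟨2 * k, ?_, by omega⟩
      have h3 : w[2 * k]? = some w[2 * k] := List.getElem?_eq_getElem h2
      have h4 := hw k _ h3 (by omega)
      rw [hk] at hj
      rw [hj] at h4
      have h5 : partner hN v = partner hN w[2 * k] := Option.some.inj h4
      have h6 : v = w[2 * k] := by
        rw [← partner_partner hN v, h5, partner_partner]
      rw [h3, ← h6]
  unfold Legal at hv ⊢
  rw [List.length_append, List.length_singleton]
  obtain ⟨L, hL⟩ := hlen
  obtain ⟨M, hM⟩ := hN
  by_cases h1 : w.length < N
  · rw [if_pos h1] at hv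
    rw [if_pos (by omega)]
    intro hmem
    rw [List.mem_append, List.mem_singleton] at hmem
    rcases hmem with hmem | hmem
    · obtain ⟨j, hj⟩ := List.mem_iff_getElem?.1 hmem
      obtain ⟨j', hj', -⟩ := key j hj
      exact hv (List.mem_iff_getElem?.2 ⟨j', hj'⟩)
    · exact partner_ne _ v hmem
  · rw [if_neg h1] at hv
    rw [if_neg (by omega)]
    intro hmem
    rw [List.drop_append_of_le_length (by omega), List.mem_append, List.mem_singleton] at hmem
    rcases hmem with hmem | hmem
    · obtain ⟨j, hj⟩ := List.mem_iff_getElem?.1 hmem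
      rw [List.getElem?_drop] at hj
      obtain ⟨j', hj', hjj⟩ := key _ hj
      apply hv
      rw [List.mem_iff_getElem?]
      refine ⟨j' - N, ?_⟩
      rw [List.getElem?_drop, show N + (j' - N) = j' by omega]
      exact hj'
    · exact partner_ne _ v hmem

theorem paired_append {N : ℕ} (hN : Even N) (w : List (Fin N)) (v : Fin N)
    (hlen : Even w.length) (hw : Paired hN w) : Paired hN (w ++ [v] ++ [partner hN v]) := by
  intro k x hk hlt
  obtain ⟨L, hL⟩ := hlen
  simp only [List.length_append, List.length_singleton] at hlt
  rw [List.append_assoc] at hk ⊢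
  by_cases h : 2 * k + 1 < w.length
  · rw [List.getElem?_append_left (by omega)] at hk
    rw [List.getElem?_append_left h]
    exact hw k x hk h
  · have hk2 : 2 * k = w.length := by omega
    rw [List.getElem?_append_right (by omega), hk2, Nat.sub_self] at hk
    rw [List.getElem?_append_right (by omega), show 2 * k + 1 - w.length = 1 by omega]
    simp only [List.cons_append, List.nil_append, List.getElem?_cons_zero, Option.some.injEq] at hk
    simp [hk]

theorem commute_of_paired {N : ℕ} (hN : Even N) (σ : Equiv.Perm (Fin N))
    (h : ∀ k, (hk : 2 * k + 1 < N) →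
      σ ⟨2 * k + 1, hk⟩ = partner hN (σ ⟨2 * k, by omega⟩)) (i : Fin N) :
    σ (partner hN i) = partner hN (σ i) := by
  obtain ⟨M, hM⟩ := id hN
  obtain ⟨i, hi⟩ := i
  rcases Nat.even_or_odd' i with ⟨k, hk | hk⟩
  · subst hk
    have e : partner hN ⟨2 * k, hi⟩ = ⟨2 * k + 1, by omega⟩ := by
      apply Fin.ext
      rw [partner_val, if_pos ⟨k, by simp; ring⟩]
    rw [e, h k (by omega)]
  · subst hk
    have e : partner hN ⟨2 * k + 1, hi⟩ = ⟨2 * k, by omega⟩ := by
      apply Fin.ext
      rw [partner_val, if_neg (by simp)]
      simp
    rw [e, h k hi, partner_partner]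

theorem not_won_even {N : ℕ} (hN : Even N) (h4 : 4 ≤ N) (w : List (Fin N))
    (hlen : w.length = 2 * N) (hw : Paired hN w) : ¬ Won w := by
  rintro ⟨σ, τ, hσ, hτ, htop⟩
  obtain ⟨M, hM⟩ := id hN
  have c1 : ∀ i, σ (partner hN i) = partner hN (σ i) := by
    apply commute_of_paired
    intro k hk
    have h1 := hσ ⟨2 * k, by omega⟩
    have h2 := hσ ⟨2 * k + 1, hk⟩
    have h3 := hw k _ h1 (by omega)
    simp only at h2
    rw [h2] at h3
    exact Option.some.inj h3
  have c2 : ∀ i, τ (partner hN i) = partner hN (τ i) := by
    apply commute_of_paired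
    intro k hk
    have h1 := hτ ⟨2 * k, by omega⟩
    have h2 := hτ ⟨2 * k + 1, hk⟩
    simp only at h1 h2
    rw [show N + 2 * k = 2 * (M + k) by omega] at h1
    have h3 := hw (M + k) _ h1 (by omega)
    rw [show N + (2 * k + 1) = 2 * (M + k) + 1 by omega, h3] at h2
    exact (Option.some.inj h2).symm
  have hall : ∀ g ∈ Subgroup.closure ({σ, τ} : Set (Equiv.Perm (Fin N))),
      ∀ i, g (partner hN i) = partner hN (g i) := by
    intro g hg
    induction hg using Subgroup.closure_induction with
    | mem x hx =>
      rcases hx with rfl | hx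
      · exact c1
      · rw [Set.mem_singleton_iff.1 hx]; exact c2
    | one => intro i; rfl
    | mul x y _ _ hx hy =>
      intro i
      rw [Equiv.Perm.mul_apply, Equiv.Perm.mul_apply, hy, hx]
    | inv x _ hx =>
      intro i
      rw [Equiv.Perm.inv_eq_iff_eq, hx]
      simp
  have h0 := hall (Equiv.swap ⟨0, by omega⟩ ⟨2, by omega⟩) (by rw [htop]; trivial) ⟨0, by omega⟩
  rw [Equiv.swap_apply_left] at h0
  have e1 : partner hN (⟨0, by omega⟩ : Fin N) = ⟨1, by omega⟩ := by
    apply Fin.ext
    rw [partner_val]; simp
  have e2 : partner hN (⟨2, by omega⟩ : Fin N) = ⟨3, by omega⟩ := by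
    apply Fin.ext
    rw [partner_val, if_pos (by simp)]
  rw [e1, e2, Equiv.swap_apply_of_ne_of_ne] at h0
  · have := congrArg Fin.val h0
    simp at this
  · intro h; have := congrArg Fin.val h; simp at this
  · intro h; have := congrArg Fin.val h; simp at this

theorem not_awins_even {N : ℕ} (hN : Even N) (h4 : 4 ≤ N) (n : ℕ) :
    ∀ w : List (Fin N), w.length + 2 * n = 2 * N → Paired hN w →
      ¬ AWins (conventionI N) (2 * n) w := by
  obtain ⟨M, hM⟩ := id hN
  have hturn : ∀ k, conventionI N k ↔ Even k := by
    intro k
    unfold conventionI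
    rw [hM, Nat.even_iff, Nat.even_iff, ← two_mul, Nat.mod_mul_right_mod]
  induction n with
  | zero =>
    intro w hlen hw
    exact not_won_even hN h4 w (by omega) hw
  | succ n ih =>
    intro w hlen hw hA
    have hev : Even w.length := ⟨N - (n + 1), by omega⟩
    rw [show 2 * (n + 1) = 2 * n + 1 + 1 by ring] at hA
    unfold AWins at hA
    rcases hA with ⟨-, v, hv, hA⟩ | ⟨hno, -⟩
    · unfold AWins at hA
      rcases hA with ⟨hyes, -⟩ | ⟨-, hall⟩
      · rw [hturn, List.length_append, List.length_singleton, Nat.even_add_one] at hyes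
        exact hyes hev
      · exact ih (w ++ [v] ++ [partner hN v]) (by
            simp only [List.length_append, List.length_singleton]; omega)
          (paired_append hN w v hev hw)
          (hall _ (partner_legal hN w v hev hw hv))
    · rw [hturn] at hno
      exact hno hev

/-! ### Odd `N` -/

/-- A nodup list of elements of `Fin N` extends to a permutation. -/
theorem exists_extend {N : ℕ} (u : List (Fin N)) (hu : u.Nodup) :
    ∃ σ : Equiv.Perm (Fin N), ∀ i : Fin N, (i : ℕ) < u.length → u[(i : ℕ)]? = some (σ i) := by
  set r := (Finset.univ.filter (fun x => x ∉ u)).toList with hr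
  have hdis : (u ++ r).Nodup := by
    rw [List.nodup_append]
    refine ⟨hu, Finset.nodup_toList _, ?_⟩
    intro a ha b hb hab
    subst hab
    rw [hr, Finset.mem_toList, Finset.mem_filter] at hb
    exact hb.2 ha
  have hmem : ∀ x, x ∈ u ++ r := by
    intro x
    rw [List.mem_append]
    by_cases hx : x ∈ u
    · exact Or.inl hx
    · right
      rw [hr, Finset.mem_toList, Finset.mem_filter]
      exact ⟨Finset.mem_univ _, hx⟩
  have hlen : (u ++ r).length = N := by
    have h1 := List.toFinset_card_of_nodup hdis
    have h2 : (u ++ r).toFinset = Finset.univ := by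
      ext x; simp only [List.mem_toFinset, Finset.mem_univ, iff_true]; exact hmem x
    rw [h2, Finset.card_univ, Fintype.card_fin] at h1
    exact h1.symm
  let f : Fin N → Fin N := fun i => (u ++ r)[(i : ℕ)]'(by rw [hlen]; exact i.2)
  have hf : Function.Injective f := by
    intro a b hab
    have := (List.Nodup.getElem_inj_iff hdis).1 hab
    exact Fin.ext this
  refine ⟨Equiv.ofBijective f (Finite.injective_iff_bijective.1 hf), ?_⟩
  intro i hi
  have e : (Equiv.ofBijective f (Finite.injective_iff_bijective.1 hf)) i = f i := rfl
  rw [e]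
  have h1 : f i = u[(i : ℕ)] := List.getElem_append_left hi
  rw [h1]
  exact List.getElem?_eq_getElem hi

/-- The invariant for a word: its entries are distinct, and if at most one entry is missing, then it is
a beginning of an even permutation. -/
def Good {N : ℕ} (u : List (Fin N)) : Prop :=
  u.Nodup ∧ (N ≤ u.length + 1 → ∃ σ : Equiv.Perm (Fin N), Equiv.Perm.sign σ = 1 ∧
    ∀ i : Fin N, (i : ℕ) < u.length → u[(i : ℕ)]? = some (σ i))

theorem good_early {N : ℕ} (u : List (Fin N)) (v : Fin N) (hu : Good u) (hv : v ∉ u)
    (hlen : u.length + 2 < N) : Good (u ++ [v]) := by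
  refine ⟨?_, ?_⟩
  · rw [List.nodup_append]
    refine ⟨hu.1, List.nodup_singleton v, ?_⟩
    intro a ha b hb hab
    rw [List.mem_singleton] at hb
    subst hab hb
    exact hv ha
  · intro h
    rw [List.length_append, List.length_singleton] at h
    omega

theorem exists_not_mem {N : ℕ} (u : List (Fin N)) (hlen : u.length < N) : ∃ v, v ∉ u := by
  by_contra hcon
  push Not at hcon
  have h1 : (Finset.univ : Finset (Fin N)) ⊆ u.toFinset := by
    intro x _
    rw [List.mem_toFinset]; exact hcon x
  have h2 := Finset.card_le_card h1
  rw [Finset.card_univ, Fintype.card_fin] at h2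
  have h3 := List.toFinset_card_le u
  omega

theorem good_choose {N : ℕ} (u : List (Fin N)) (hu : Good u) (hlen : u.length + 2 = N) :
    ∃ v, v ∉ u ∧ Good (u ++ [v]) := by
  obtain ⟨σ₀, hσ₀⟩ := exists_extend u hu.1
  have hex : ∃ σ : Equiv.Perm (Fin N), Equiv.Perm.sign σ = 1 ∧
      ∀ i : Fin N, (i : ℕ) < u.length → u[(i : ℕ)]? = some (σ i) := by
    rcases Int.units_eq_one_or (Equiv.Perm.sign σ₀) with h | h
    · exact ⟨σ₀, h, hσ₀⟩
    · refine ⟨σ₀ * Equiv.swap ⟨u.length, by omega⟩ ⟨u.length + 1, by omega⟩, ?_, ?_⟩
      · rw [Equiv.Perm.sign_mul, h, Equiv.Perm.sign_swap]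
        · rfl
        · intro h; have := congrArg Fin.val h; simp at this
      · intro i hi
        rw [Equiv.Perm.mul_apply, Equiv.swap_apply_of_ne_of_ne]
        · exact hσ₀ i hi
        · intro h; rw [h] at hi; simp at hi
        · intro h; rw [h] at hi; simp at hi
  obtain ⟨σ, hs, hσ⟩ := hex
  have hv : σ ⟨u.length, by omega⟩ ∉ u := by
    intro hmem
    obtain ⟨j, hj⟩ := List.mem_iff_getElem?.1 hmem
    have hjl : j < u.length := by
      by_contra hcon
      rw [List.getElem?_eq_none (by omega)] at hj
      exact absurd hj (by simp)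
    have h1 := hσ ⟨j, by omega⟩ hjl
    simp only at h1
    rw [hj] at h1
    have h2 := σ.injective (Option.some.inj h1)
    have h3 := congrArg Fin.val h2
    simp only at h3
    omega
  refine ⟨_, hv, ?_, ?_⟩
  · rw [List.nodup_append]
    refine ⟨hu.1, List.nodup_singleton _, ?_⟩
    intro a ha b hb hab
    rw [List.mem_singleton] at hb
    subst hab hb
    exact hv ha
  · intro _
    refine ⟨σ, hs, ?_⟩
    intro i hi
    rw [List.length_append, List.length_singleton] at hi
    by_cases h : (i : ℕ) < u.length
    · rw [List.getElem?_append_left h]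
      exact hσ i h
    · have he : (i : ℕ) = u.length := by omega
      rw [List.getElem?_append_right (by omega), he, Nat.sub_self]
      simp only [List.getElem?_cons_zero, Option.some.injEq]
      congr 1
      exact Fin.ext he.symm

theorem good_last {N : ℕ} (u : List (Fin N)) (v : Fin N) (hu : Good u) (hv : v ∉ u)
    (hlen : u.length + 1 = N) : Good (u ++ [v]) := by
  obtain ⟨σ, hs, hσ⟩ := hu.2 (by omega)
  have hvσ : v = σ ⟨u.length, by omega⟩ := by
    obtain ⟨j, hj⟩ := σ.surjective v
    by_cases h : (j : ℕ) < u.length
    · exfalso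
      apply hv
      rw [List.mem_iff_getElem?]
      exact ⟨j, by rw [hσ j h, hj]⟩
    · have : j = ⟨u.length, by omega⟩ := Fin.ext (by
        have := j.2
        simp only
        omega)
      rw [← this, hj]
  refine ⟨?_, ?_⟩
  · rw [List.nodup_append]
    refine ⟨hu.1, List.nodup_singleton _, ?_⟩
    intro a ha b hb hab
    rw [List.mem_singleton] at hb
    subst hab hb
    exact hv ha
  · intro _
    refine ⟨σ, hs, ?_⟩
    intro i hi
    rw [List.length_append, List.length_singleton] at hi
    by_cases h : (i : ℕ) < u.length
    · rw [List.getElem?_append_left h]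
      exact hσ i h
    · have he : (i : ℕ) = u.length := by omega
      rw [List.getElem?_append_right (by omega), he, Nat.sub_self]
      simp only [List.getElem?_cons_zero, Option.some.injEq]
      rw [hvσ]
      congr 1
      exact Fin.ext he.symm

/-- The current word. -/
def current {N : ℕ} (w : List (Fin N)) : List (Fin N) := if w.length < N then w else w.drop N

theorem legal_iff {N : ℕ} (w : List (Fin N)) (v : Fin N) : Legal w v ↔ v ∉ current w := by
  unfold Legal current
  split_ifs <;> rfl

/-- The invariant for the list of all entries. -/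
def Inv {N : ℕ} (w : List (Fin N)) : Prop :=
  Good (w.take N) ∧ (N ≤ w.length → Good (w.drop N))

theorem good_nil {N : ℕ} (hN : 2 ≤ N) : Good ([] : List (Fin N)) :=
  ⟨List.nodup_nil, fun h => by simp at h; omega⟩

theorem inv_step {N : ℕ} (hN : 2 ≤ N) (w : List (Fin N)) (v : Fin N) (hw : Inv w)
    (hv : Good (current w ++ [v])) : Inv (w ++ [v]) := by
  unfold current at hv
  by_cases h : w.length < N
  · rw [if_pos h] at hv
    refine ⟨?_, ?_⟩
    · rw [List.take_of_length_le (by simp; omega)]
      exact hv
    · intro h2
      rw [List.length_append, List.length_singleton] at h2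
      rw [List.drop_of_length_le (by simp; omega)]
      exact good_nil hN
  · rw [if_neg h] at hv
    refine ⟨?_, ?_⟩
    · rw [List.take_append_of_le_length (by omega)]
      exact hw.1
    · intro _
      rw [List.drop_append_of_le_length (by omega)]
      exact hv

theorem not_won_odd {N : ℕ} (hN : 2 ≤ N) (w : List (Fin N)) (hlen : w.length = 2 * N)
    (hw : Inv w) : ¬ Won w := by
  rintro ⟨σ, τ, hσ, hτ, htop⟩
  obtain ⟨σ', hs, hσ'⟩ := hw.1.2 (by simp; omega)
  obtain ⟨τ', ht, hτ'⟩ := (hw.2 (by omega)).2 (by simp; omega)
  have e1 : σ = σ' := by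
    ext i
    have h1 := hσ' i (by simp; omega)
    rw [List.getElem?_take_of_lt i.2, hσ i] at h1
    rw [Option.some.inj h1]
  have e2 : τ = τ' := by
    ext i
    have h1 := hτ' i (by simp; omega)
    rw [List.getElem?_drop, hτ i] at h1
    rw [Option.some.inj h1]
  have hle : Subgroup.closure ({σ, τ} : Set (Equiv.Perm (Fin N))) ≤ alternatingGroup (Fin N) := by
    rw [Subgroup.closure_le]
    intro g hg
    rcases hg with rfl | hg
    · rw [SetLike.mem_coe, Equiv.Perm.mem_alternatingGroup, e1]; exact hs
    · rw [Set.mem_singleton_iff.1 hg, SetLike.mem_coe, Equiv.Perm.mem_alternatingGroup, e2]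
      exact ht
  rw [htop] at hle
  have h1 : Equiv.swap (⟨0, by omega⟩ : Fin N) ⟨1, by omega⟩ ∈ alternatingGroup (Fin N) :=
    hle (by trivial)
  rw [Equiv.Perm.mem_alternatingGroup, Equiv.Perm.sign_swap] at h1
  · exact absurd h1 (by decide)
  · intro h; have := congrArg Fin.val h; simp at this

theorem not_awins_odd {N : ℕ} (hN : Odd N) (h3 : 3 ≤ N) (n : ℕ) :
    ∀ w : List (Fin N), w.length + n = 2 * N → Inv w → ¬ AWins (conventionI N) n w := by
  obtain ⟨M, hM⟩ := id hN
  induction n with
  | zero =>
    intro w hlen hw
    exact not_won_odd (by omega) w (by omega) hw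
  | succ n ih =>
    intro w hlen hw hA
    have hcl : (current w).length = w.length % N := by
      unfold current
      split_ifs with h
      · rw [Nat.mod_eq_of_lt h]
      · rw [List.length_drop, Nat.mod_eq_sub_mod (by omega), Nat.mod_eq_of_lt (by omega)]
    have hlt : (current w).length < N := by rw [hcl]; exact Nat.mod_lt _ (by omega)
    have hcg : Good (current w) := by
      unfold current
      split_ifs with h
      · have := hw.1
        rwa [List.take_of_length_le (by omega)] at this
      · exact hw.2 (by omega)
    have hlen2 : ∀ v : Fin N, (w ++ [v]).length + n = 2 * N := by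
      intro v; rw [List.length_append, List.length_singleton]; omega
    unfold AWins at hA
    rcases hA with ⟨hturn, v, hv, hA⟩ | ⟨hturn, hall⟩
    · rw [legal_iff] at hv
      refine ih (w ++ [v]) (hlen2 v) (inv_step (by omega) w v hw ?_) hA
      unfold conventionI at hturn
      rw [← hcl] at hturn
      by_cases h : (current w).length + 2 < N
      · exact good_early _ v hcg hv h
      · by_cases h2 : (current w).length + 1 = N
        · exact good_last _ v hcg hv h2
        · exfalso
          obtain ⟨a, ha⟩ := hturn
          omega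
    · unfold conventionI at hturn
      rw [← hcl] at hturn
      by_cases h : (current w).length + 2 < N
      · obtain ⟨v, hv⟩ := exists_not_mem (current w) hlt
        exact ih (w ++ [v]) (hlen2 v) (inv_step (by omega) w v hw (good_early _ v hcg hv h))
          (hall v ((legal_iff w v).2 hv))
      · by_cases h2 : (current w).length + 2 = N
        · obtain ⟨v, hv, hg⟩ := good_choose (current w) hcg h2
          exact ih (w ++ [v]) (hlen2 v) (inv_step (by omega) w v hw hg)
            (hall v ((legal_iff w v).2 hv))
        · exfalso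
          apply hturn
          exact ⟨M, by omega⟩

/-! ### Small `N` -/

theorem awins_one : AWinsGame 1 := by
  refine Or.inl ⟨by unfold conventionI; decide, 0, by simp [Legal],
    Or.inl ⟨by unfold conventionI; decide, 0, by simp [Legal], ?_⟩⟩
  refine ⟨1, 1, ?_, ?_, Subsingleton.elim _ _⟩
  · intro i; fin_cases i; rfl
  · intro i; fin_cases i; rfl

theorem awins_two : AWinsGame 2 := by
  refine Or.inl ⟨by unfold conventionI; decide, 1, by simp [Legal],
    Or.inr ⟨by unfold conventionI; decide, ?_⟩⟩
  intro v hv
  have hv0 : v = 0 := by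
    unfold Legal at hv
    simp at hv
    omega
  subst hv0
  refine Or.inl ⟨by unfold conventionI; decide, 1, by simp [Legal],
    Or.inr ⟨by unfold conventionI; decide, ?_⟩⟩
  intro v hv
  have hv0 : v = 0 := by
    unfold Legal at hv
    simp at hv
    omega
  subst hv0
  refine ⟨Equiv.swap 0 1, Equiv.swap 0 1, ?_, ?_, ?_⟩
  · intro i; fin_cases i <;> rfl
  · intro i; fin_cases i <;> rfl
  · rw [eq_top_iff]
    intro g _
    have hg : ∀ g : Equiv.Perm (Fin 2), g = 1 ∨ g = Equiv.swap 0 1 := by decide
    rcases hg g with h | h
    · rw [h]; exact Subgroup.one_mem _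
    · rw [h]; exact Subgroup.subset_closure (by simp)

/-- Under Convention I, for every `N ≥ 1` player `A` has a winning strategy if and only if `N ≤ 2`. -/
theorem result (N : ℕ) (hN : 1 ≤ N) : AWinsGame N ↔ N ≤ 2 := by
  constructor
  · intro h
    by_contra hcon
    push Not at hcon
    rcases Nat.even_or_odd N with he | ho
    · have h4 : 4 ≤ N := by
        obtain ⟨M, hM⟩ := he
        omega
      exact not_awins_even he h4 N [] (by simp) (fun k v hk _ => by simp at hk) h
    · refine not_awins_odd ho hcon (2 * N) [] (by simp) ⟨?_, ?_⟩ h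
      · rw [List.take_nil]; exact good_nil (by omega)
      · intro h; simp at h; omega
  · intro h
    interval_cases N
    · exact awins_one
    · exact awins_two

end Pool.Agent.Results.MP_337ab5_co.ConventionOne
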